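import Pool.Agent.H24R2.DZ.Spec
import Pool.Agent.Helper76.HPlanch

/-!
# Parseval inequality for the Mellin transform
-/

set_option autoImplicit false
open Complex Filter Topology MeasureTheory Set FourierTransform
open scoped ENNReal

namespace Pool.Agent.W352.SD

open Pool.Agent.H24R2.DZ

lemma int_aux (m : ℝ) (hm : 0 < m) (g : ℝ → ℂ) (hg : Continuous g) (C : ℝ)
    (h1 : ∀ u ≤ 0, ‖g u‖ ≤ C * Real.exp (m * u)) (h2 : ∀ u, 0 < u → ‖g u‖ ≤ C * Real.exp (-m * u)) :
    Integrable g := by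
  have e1 : IntegrableOn g (Iic 0) := by
    have h := (integrableOn_exp_mul_Iic hm 0).const_mul C
    refine Integrable.mono' h hg.aestronglyMeasurable ?_
    filter_upwards [ae_restrict_mem measurableSet_Iic] with u hu
    exact h1 u hu
  have e2 : IntegrableOn g (Ioi 0) := by
    have h := (integrableOn_exp_mul_Ioi (neg_lt_zero.mpr hm) 0).const_mul C
    refine Integrable.mono' h hg.aestronglyMeasurable ?_
    filter_upwards [ae_restrict_mem measurableSet_Ioi] with u hu
    exact h2 u hu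
  rw [← integrableOn_univ, ← Iic_union_Ioi (a := (0:ℝ))]
  exact e1.union e2

theorem splan : SPlan := by
  intro F C σ A B hF h0 h1 hC hCx hAB
  have hC0 : 0 ≤ C := le_trans (norm_nonneg _) (hC 1 one_pos)
  set g : ℝ → ℂ := fun u => Real.exp (-σ * u) • F (Real.exp (-u)) with hg
  have gcont : Continuous g := by
    have : Continuous (fun u : ℝ => F (Real.exp (-u))) :=
      hF.comp_continuous (by fun_prop) (fun u => Real.exp_pos _)
    have h2 : Continuous (fun u : ℝ => Real.exp (-σ * u)) := by fun_prop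
    exact h2.smul this
  have gn : ∀ u, ‖g u‖ = Real.exp (-σ * u) * ‖F (Real.exp (-u))‖ := by
    intro u
    simp only [hg, norm_smul, Real.norm_eq_abs, Real.abs_exp]
  set m := min σ (1 - σ) with hm
  have hm0 : 0 < m := lt_min h0 (by linarith)
  have b1 : ∀ u ≤ 0, ‖g u‖ ≤ C * Real.exp (m * u) := by
    intro u hu
    rw [gn]
    have h3 := hCx (Real.exp (-u)) (Real.exp_pos _)
    have h4 : C / Real.exp (-u) = C * Real.exp u := by
      rw [Real.exp_neg, div_inv_eq_mul]
    rw [h4] at h3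
    calc Real.exp (-σ * u) * ‖F (Real.exp (-u))‖ ≤ Real.exp (-σ * u) * (C * Real.exp u) := by
          gcongr
      _ = C * Real.exp ((1 - σ) * u) := by
          rw [show (1 - σ) * u = -σ * u + u by ring, Real.exp_add]; ring
      _ ≤ C * Real.exp (m * u) := by
          gcongr C * Real.exp ?_
          have : m ≤ 1 - σ := min_le_right _ _
          nlinarith
  have b2 : ∀ u, 0 < u → ‖g u‖ ≤ C * Real.exp (-m * u) := by
    intro u hu
    rw [gn]
    have h3 := hC (Real.exp (-u)) (Real.exp_pos _)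
    calc Real.exp (-σ * u) * ‖F (Real.exp (-u))‖ ≤ Real.exp (-σ * u) * C := by
          gcongr
      _ = C * Real.exp (-σ * u) := by ring
      _ ≤ C * Real.exp (-m * u) := by
          gcongr C * Real.exp ?_
          have : m ≤ σ := min_le_left _ _
          nlinarith
  have g1 : Integrable g := int_aux m hm0 g gcont C b1 b2
  have gb : ∀ u, ‖g u‖ ≤ C := by
    intro u
    rcases le_or_gt u 0 with hu | hu
    · refine (b1 u hu).trans ?_
      have : Real.exp (m * u) ≤ 1 := Real.exp_le_one_iff.mpr (by nlinarith)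
      nlinarith
    · refine (b2 u hu).trans ?_
      have : Real.exp (-m * u) ≤ 1 := Real.exp_le_one_iff.mpr (by nlinarith)
      nlinarith
  have gsq : Integrable (fun u => ‖g u‖ ^ 2) := by
    refine Integrable.mono' (g1.norm.const_mul C) (by fun_prop) ?_
    filter_upwards with u
    rw [Real.norm_of_nonneg (by positivity), pow_two]
    exact mul_le_mul_of_nonneg_right (gb u) (norm_nonneg _)
  have g2 : MemLp g 2 := (memLp_two_iff_integrable_sq_norm gcont.aestronglyMeasurable).mpr gsq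
  have hpl := Pool.Agent.Helper76.NormalHP.plancherel_lintegral g g1 g2
  -- left side
  have hmel : ∀ t : ℝ, ∫ x in Ioi (0 : ℝ), F x * (x : ℂ) ^ ((σ : ℂ) + t * I - 1) =
      𝓕 g (t / (2 * Real.pi)) := by
    intro t
    have h := mellin_eq_fourier F (s := (σ : ℂ) + t * I)
    have e1 : ((σ : ℂ) + t * I).re = σ := by simp
    have e2 : ((σ : ℂ) + t * I).im = t := by simp
    rw [e1, e2] at h
    rw [← h, mellin]
    refine setIntegral_congr_fun measurableSet_Ioi ?_
    intro x _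
    simp only [smul_eq_mul]
    ring
  have hcont : Continuous (𝓕 g) :=
    VectorFourier.fourierIntegral_continuous Real.continuous_fourierChar
      (innerSL ℝ).continuous₂ g1
  -- integrability of the Fourier transform squared
  have hfin : ∫⁻ u, ‖g u‖ₑ ^ 2 = ENNReal.ofReal (∫ u, ‖g u‖ ^ 2) := by
    rw [ofReal_integral_eq_lintegral_ofReal gsq (by filter_upwards with u; positivity)]
    refine lintegral_congr fun u => ?_
    rw [ENNReal.ofReal_pow (norm_nonneg _), ofReal_norm]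
  have hFint : Integrable (fun ξ => ‖𝓕 g ξ‖ ^ 2) := by
    refine ⟨by fun_prop, ?_⟩
    rw [hasFiniteIntegral_iff_ofReal (by filter_upwards with u; positivity)]
    have : ∫⁻ a, ENNReal.ofReal (‖𝓕 g a‖ ^ 2) = ∫⁻ ξ, ‖𝓕 g ξ‖ₑ ^ 2 := by
      refine lintegral_congr fun u => ?_
      rw [ENNReal.ofReal_pow (norm_nonneg _), ofReal_norm]
    rw [this, hpl, hfin]
    exact ENNReal.ofReal_lt_top
  have hFeq : ∫ ξ, ‖𝓕 g ξ‖ ^ 2 = ∫ u, ‖g u‖ ^ 2 := by
    have h3 : ∫⁻ ξ, ‖𝓕 g ξ‖ₑ ^ 2 = ENNReal.ofReal (∫ u, ‖𝓕 g u‖ ^ 2) := by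
      rw [ofReal_integral_eq_lintegral_ofReal hFint (by filter_upwards with u; positivity)]
      refine lintegral_congr fun u => ?_
      rw [ENNReal.ofReal_pow (norm_nonneg _), ofReal_norm]
    rw [h3, hfin] at hpl
    exact (ENNReal.ofReal_eq_ofReal_iff (integral_nonneg fun _ => by positivity)
      (integral_nonneg fun _ => by positivity)).mp hpl
  -- right side
  have hR : ∫ x in Ioi (0 : ℝ), ‖F x‖ ^ 2 * x ^ (2 * σ - 1) = ∫ u, ‖g u‖ ^ 2 := by
    have h := mellin_eq_fourier (fun x => ((‖F x‖ ^ 2 : ℝ) : ℂ)) (s := ((2 * σ : ℝ) : ℂ))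
    rw [ofReal_re, ofReal_im, zero_div, mellin, Real.fourier_eq] at h
    simp only [inner_zero_right, neg_zero, AddChar.map_zero_eq_one, one_smul] at h
    have e1 : ∫ t in Ioi (0:ℝ), (t : ℂ) ^ (((2 * σ : ℝ) : ℂ) - 1) • ((‖F t‖ ^ 2 : ℝ) : ℂ) =
        ((∫ x in Ioi (0 : ℝ), ‖F x‖ ^ 2 * x ^ (2 * σ - 1) : ℝ) : ℂ) := by
      rw [← integral_complex_ofReal]
      refine setIntegral_congr_fun measurableSet_Ioi ?_
      intro x hx
      have hx0 : (0:ℝ) ≤ x := le_of_lt hx
      have h5 : (x : ℂ) ^ (((2 * σ : ℝ) : ℂ) - 1) = ((x ^ (2 * σ - 1) : ℝ) : ℂ) := by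
        rw [ofReal_cpow hx0]; push_cast; rfl
      simp only [smul_eq_mul]
      rw [h5]
      push_cast
      ring
    have e2 : ∫ u : ℝ, Real.exp (-(2 * σ) * u) • ((‖F (Real.exp (-u))‖ ^ 2 : ℝ) : ℂ) =
        ((∫ u, ‖g u‖ ^ 2 : ℝ) : ℂ) := by
      rw [← integral_complex_ofReal]
      refine integral_congr_ae ?_
      filter_upwards with u
      rw [gn, real_smul, ← ofReal_mul]
      congr 1
      rw [mul_pow, ← Real.exp_nat_mul]
      congr 2
      push_cast; ring
    rw [e1, e2] at h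
    exact_mod_cast h
  rw [hR, ← hFeq]
  have hpi : (0:ℝ) < 2 * Real.pi := by positivity
  have hFint' : Integrable (fun t : ℝ => ‖𝓕 g (t / (2 * Real.pi))‖ ^ 2) :=
    hFint.comp_div hpi.ne'
  calc ∫ t in A..B, ‖∫ x in Ioi (0 : ℝ), F x * (x : ℂ) ^ ((σ : ℂ) + t * I - 1)‖ ^ 2
      = ∫ t in A..B, ‖𝓕 g (t / (2 * Real.pi))‖ ^ 2 := by
        refine intervalIntegral.integral_congr ?_
        intro t _
        simp only [hmel]
    _ = ∫ t in Ioc A B, ‖𝓕 g (t / (2 * Real.pi))‖ ^ 2 := intervalIntegral.integral_of_le hAB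
    _ ≤ ∫ t, ‖𝓕 g (t / (2 * Real.pi))‖ ^ 2 :=
        setIntegral_le_integral hFint' (by filter_upwards with t; positivity)
    _ = 2 * Real.pi * ∫ ξ, ‖𝓕 g ξ‖ ^ 2 := by
        rw [Measure.integral_comp_div (fun ξ => ‖𝓕 g ξ‖ ^ 2) (2 * Real.pi), abs_of_pos hpi,
          smul_eq_mul]

end Pool.Agent.W352.SD
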